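import Pool.Agent.Lib.P2d9e0f.Tarry
import Pool.Agent.Lib.P2d9e0f.Cube

set_option autoImplicit false

namespace Pool.Agent.Results.MP_2d9e0f_co.Disproof

/-- A map `φ : X^s → X^s`, where `X = Fin v` is a set with `v` elements, is a
`(t, s, v)`-all-or-nothing transform: `φ` is a bijection and, for all sets `I`, `J` of `t`
coordinates, the map that sends `x` to the pair formed by the restriction of `x` to `I` and the
restriction of `φ x` to the complement of `J` is a bijection. -/
structure IsAONT (t s v : ℕ) (φ : (Fin s → Fin v) → (Fin s → Fin v)) : Prop where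
  bij : Function.Bijective φ
  cond : ∀ I J : Finset (Fin s), I.card = t → J.card = t →
    Function.Bijective (fun x : Fin s → Fin v =>
      ((fun i => x i.1 : {i // i ∈ I} → Fin v), (fun j => φ x j.1 : {j // j ∉ J} → Fin v)))

/-- A `(t, s, v)`-all-or-nothing transform exists. -/
def AONTExists (t s v : ℕ) : Prop := ∃ φ : (Fin s → Fin v) → (Fin s → Fin v), IsAONT t s v φ

theorem exists_three : AONTExists 1 3 6 := by
  refine ⟨P2d9e0f.phi, Finite.injective_iff_bijective.1 P2d9e0f.phi_injective, ?_⟩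
  intro I J hI hJ
  obtain ⟨i, rfl⟩ := Finset.card_eq_one.1 hI
  obtain ⟨j, rfl⟩ := Finset.card_eq_one.1 hJ
  rw [Fintype.bijective_iff_injective_and_card]
  constructor
  · intro x x' h
    rw [Prod.mk.injEq] at h
    have h1 : x i = x' i := congrFun h.1 ⟨i, Finset.mem_singleton_self i⟩
    have h2 : ∀ k, k ≠ j → P2d9e0f.phi x k = P2d9e0f.phi x' k := fun k hk =>
      congrFun h.2 ⟨k, fun hk' => hk (Finset.mem_singleton.1 hk')⟩
    refine P2d9e0f.phi_injective (P2d9e0f.cube_latin i j _ _ h2 ?_)
    rw [P2d9e0f.cube_phi, P2d9e0f.cube_phi, h1]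
  · have c1 : Fintype.card {k // k ∈ ({i} : Finset (Fin 3))} = 1 := by
      rw [Fintype.card_coe]; exact hI
    have c2 : Fintype.card {k // k ∉ ({j} : Finset (Fin 3))} = 2 := by
      rw [Fintype.card_subtype_compl, Fintype.card_coe, hJ, Fintype.card_fin]
    rw [Fintype.card_prod, Fintype.card_fun, Fintype.card_fun, Fintype.card_fun, c1, c2,
      Fintype.card_fin, Fintype.card_fin]
    norm_num

theorem fin2 : ∀ j : Fin 2, ∃ k : Fin 2, k ≠ j ∧ ∀ m : Fin 2, m ≠ k → m = j := by
  decide

theorem fin2' : ∀ k : Fin 2, k = 0 ∨ k = 1 := by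
  decide

theorem not_exists_two : ¬ AONTExists 1 2 6 := by
  rintro ⟨φ, hb, hc⟩
  have key : ∀ i j : Fin 2, ∀ x x' : Fin 2 → Fin 6, x i = x' i → φ x j = φ x' j → x = x' := by
    intro i j x x' h1 h2
    obtain ⟨k, hk, hk'⟩ := fin2 j
    refine (hc {i} {k} (Finset.card_singleton _) (Finset.card_singleton _)).1 ?_
    rw [Prod.mk.injEq]
    constructor
    · funext m
      have := Finset.mem_singleton.1 m.2
      rw [this, h1]
    · funext m
      have := hk' m.1 (fun h => m.2 (Finset.mem_singleton.2 h))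
      rw [this, h2]
  have hpair : ∀ r c : Fin 6, (![r, c] : Fin 2 → Fin 6) 0 = r ∧ (![r, c] : Fin 2 → Fin 6) 1 = c :=
    fun r c => ⟨rfl, rfl⟩
  refine P2d9e0f.tarry (fun r c => φ ![r, c] 0) (fun r c => φ ![r, c] 1) ?_ ?_ ?_ ?_ ?_
  · intro r c c' h
    have := key 0 0 ![r, c] ![r, c'] rfl h
    exact congrFun this 1
  · intro c r r' h
    have := key 1 0 ![r, c] ![r', c] rfl h
    exact congrFun this 0
  · intro r c c' h
    have := key 0 1 ![r, c] ![r, c'] rfl h
    exact congrFun this 1
  · intro c r r' h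
    have := key 1 1 ![r, c] ![r', c] rfl h
    exact congrFun this 0
  · intro r c r' c' h1 h2
    have : φ ![r, c] = φ ![r', c'] := by
      funext k
      have hk : k = 0 ∨ k = 1 := fin2' k
      rcases hk with rfl | rfl
      · exact h1
      · exact h2
    have h3 := hb.1 this
    exact ⟨congrFun h3 0, congrFun h3 1⟩

/-- A `(1, 3, 6)`-all-or-nothing transform exists, but no `(1, 2, 6)`-all-or-nothing transform
exists. In particular it is not true that the existence of a `(t, s, v)`-all-or-nothing transform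
always implies that of a `(t, s - 1, v)`-all-or-nothing transform. -/
theorem result : (AONTExists 1 3 6 ∧ ¬ AONTExists 1 2 6) ∧
    ¬ ∀ v t s : ℕ, 1 ≤ v → 1 ≤ t → t ≤ s - 1 → AONTExists t s v → AONTExists t (s - 1) v :=
  ⟨⟨exists_three, not_exists_two⟩, fun h =>
    not_exists_two (h 6 1 3 (by norm_num) le_rfl (by norm_num) exists_three)⟩

end Pool.Agent.Results.MP_2d9e0f_co.Disproof
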